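import Mathlib

namespace Pool.Agent.Results.MP_b06300_an.Simultaneous

open Finset Matrix Function

section CB

variable {R : Type*} [CommRing R] {ι κ : Type*} [Fintype ι] [DecidableEq ι] [Fintype κ]

/-- Expansion of the determinant of a product over all functions. -/
theorem det_mul_expand (A : Matrix ι κ R) (B : Matrix κ ι R) :
    (A * B).det = ∑ I : ι → κ, (∏ a, A a (I a)) * (B.submatrix I id).det := by
  have h1 : (A * B).det = Matrix.detRowAlternating (fun a => ∑ i, A a i • B i) := by
    change Matrix.detRowAlternating (A * B) = _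
    congr 1
    funext a b
    simp [Matrix.mul_apply, Finset.sum_apply]
  rw [h1]
  have h2 := (Matrix.detRowAlternating (n := ι) (R := R)).toMultilinearMap.map_sum
    (fun (a : ι) (i : κ) => A a i • B i)
  refine h2.trans ?_
  refine Finset.sum_congr rfl fun I _ => ?_
  have h3 := (Matrix.detRowAlternating (n := ι) (R := R)).toMultilinearMap.map_smul_univ
    (fun a => A a (I a)) (fun a => B (I a))
  refine h3.trans ?_
  rfl

/-- Cauchy-Binet over functions. -/
theorem cb (A : Matrix ι κ R) (B : Matrix κ ι R) :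
    ((Fintype.card ι).factorial : R) * (A * B).det =
      ∑ I : ι → κ, (A.submatrix id I).det * (B.submatrix I id).det := by
  have key : ∀ σ : Equiv.Perm ι, (A * B).det = ∑ I : ι → κ,
      (((Equiv.Perm.sign σ : ℤˣ) : ℤ) : R) * (∏ a, A a (I (σ a))) * (B.submatrix I id).det := by
    intro σ
    rw [det_mul_expand]
    have h := Equiv.sum_comp (Equiv.arrowCongr σ.symm (Equiv.refl κ))
      (fun I : ι → κ => (∏ a, A a (I a)) * (B.submatrix I id).det)
    rw [← h]
    refine Finset.sum_congr rfl fun I _ => ?_
    have h1 : (Equiv.arrowCongr σ.symm (Equiv.refl κ)) I = I ∘ σ := by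
      funext a
      simp [Equiv.arrowCongr]
    rw [h1]
    have h2 : B.submatrix (I ∘ σ) id = (B.submatrix I id).submatrix σ id := by
      ext a b
      rfl
    rw [h2, Matrix.det_permute]
    simp only [Function.comp_apply]
    ring
  have h3 : ∑ σ : Equiv.Perm ι, (A * B).det = ((Fintype.card ι).factorial : R) * (A * B).det := by
    rw [Finset.sum_const, Finset.card_univ, Fintype.card_perm, nsmul_eq_mul]
  rw [← h3, Finset.sum_congr rfl fun σ _ => key σ, Finset.sum_comm]
  refine Finset.sum_congr rfl fun I _ => ?_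
  rw [← Finset.sum_mul]
  congr 1
  rw [← Matrix.det_transpose, Matrix.det_apply']
  rfl

end CB

/-- For equally long injective lists `x`, `y` of group elements there is a function `F` for which
the matrix `F (x i - y j)` is nonsingular. -/
lemma exists_F {G : Type*} [AddCommGroup G] : ∀ (n : ℕ) (ι : Type) [Fintype ι] [DecidableEq ι],
    Fintype.card ι = n → ∀ x y : ι → G, Injective x → Injective y →
    ∃ F : G → ℂ, (Matrix.of fun i j => F (x i - y j)).det ≠ 0 := by
  classical
  intro n
  induction n using Nat.strong_induction_on with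
  | _ n ih =>
  intro ι _ _ hn x y hx hy
  rcases isEmpty_or_nonempty ι with hι | ⟨⟨i0⟩⟩
  · exact ⟨fun _ => 0, by simp⟩
  obtain ⟨g, hg⟩ : ∃ g, g = x i0 - y i0 := ⟨_, rfl⟩
  -- match rows and columns
  let e : {i // ∃ j, x i - y j = g} ≃ {j // ∃ i, x i - y j = g} :=
    { toFun := fun i => ⟨i.2.choose, i.1, i.2.choose_spec⟩
      invFun := fun j => ⟨j.2.choose, j.1, j.2.choose_spec⟩
      left_inv := by
        intro i
        apply Subtype.ext
        apply hx
        have h1 := i.2.choose_spec
        have h2 := (⟨i.1, i.2.choose_spec⟩ : ∃ i', x i' - y (i.2.choose) = g).choose_spec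
        have h3 : x ((⟨i.1, i.2.choose_spec⟩ : ∃ i', x i' - y (i.2.choose) = g).choose) - y i.2.choose
          = x i.1 - y i.2.choose := h2.trans h1.symm
        exact sub_left_injective h3
      right_inv := by
        intro j
        apply Subtype.ext
        apply hy
        have h1 := j.2.choose_spec
        have h2 := (⟨j.1, j.2.choose_spec⟩ : ∃ j', x (j.2.choose) - y j' = g).choose_spec
        have h3 : x j.2.choose - y ((⟨j.1, j.2.choose_spec⟩ : ∃ j', x (j.2.choose) - y j' = g).choose)
          = x j.2.choose - y j.1 := h2.trans h1.symm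
        exact sub_right_injective h3 }
  obtain ⟨σ, hσ⟩ : ∃ σ : Equiv.Perm ι, ∀ i, (∃ j, x i - y j = g) → x i - y (σ i) = g := by
    refine ⟨e.extendSubtype, fun i hi => ?_⟩
    rw [Equiv.extendSubtype_apply_of_mem e i hi]
    exact hi.choose_spec
  -- it suffices to treat the permuted columns
  suffices h : ∃ F : G → ℂ, (Matrix.of fun i j => F (x i - y (σ j))).det ≠ 0 by
    obtain ⟨F, hF⟩ := h
    refine ⟨F, fun h0 => hF ?_⟩
    have : (Matrix.of fun i j => F (x i - y (σ j))) =
        (Matrix.of fun i j => F (x i - y j)).submatrix id σ := by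
      ext i j; rfl
    rw [this, Matrix.det_permute', h0, mul_zero]
  obtain ⟨y', hy'⟩ : ∃ y' : ι → G, y' = y ∘ σ := ⟨_, rfl⟩
  have hy'i : Injective y' := by rw [hy']; exact hy.comp σ.injective
  have hm : ∀ i j, x i - y' j = g → i = j ∧ x i - y' i = g := by
    intro i j hij
    have h1 : x i - y' i = g := by
      rw [hy']
      exact hσ i ⟨σ j, by rw [hy'] at hij; exact hij⟩
    refine ⟨?_, h1⟩
    apply hy'i
    exact sub_right_injective (h1.trans hij.symm)
  have hgoal : (∃ F : G → ℂ, (Matrix.of fun i j => F (x i - y' j)).det ≠ 0) →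
      ∃ F : G → ℂ, (Matrix.of fun i j => F (x i - y (σ j))).det ≠ 0 := by
    rw [hy']; exact fun h => h
  apply hgoal
  let p : ι → Prop := fun i => x i - y' i = g
  have hne : ∃ i, p i := ⟨i0, by
    have : ∃ j, x i0 - y j = g := ⟨i0, hg.symm⟩
    change x i0 - y' i0 = g
    rw [hy']
    exact hσ i0 this⟩
  -- induction on the unmatched indices
  have hcard : Fintype.card {i // ¬ p i} < n := by
    rw [← hn]
    exact Fintype.card_subtype_lt (x := hne.choose) (not_not.2 hne.choose_spec)
  obtain ⟨F', hF'⟩ := ih _ hcard {i // ¬ p i} rfl (fun i => x i) (fun i => y' i)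
    (hx.comp Subtype.val_injective) (hy'i.comp Subtype.val_injective)
  obtain ⟨D, hD⟩ : ∃ D : Matrix {i // ¬ p i} {i // ¬ p i} ℂ,
    D = Matrix.of fun (i : {i // ¬ p i}) (j : {i // ¬ p i}) => F' (x i - y' j) := ⟨_, rfl⟩
  have hDdet : D.det ≠ 0 := by rw [hD]; exact hF'
  obtain ⟨B, hB⟩ : ∃ B : Matrix {i // p i} {i // ¬ p i} ℂ,
    B = Matrix.of fun (i : {i // p i}) (j : {i // ¬ p i}) => F' (x i - y' j) := ⟨_, rfl⟩
  obtain ⟨C, hC⟩ : ∃ C : Matrix {i // ¬ p i} {i // p i} ℂ,
    C = Matrix.of fun (i : {i // ¬ p i}) (j : {i // p i}) => F' (x i - y' j) := ⟨_, rfl⟩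
  obtain ⟨A, hA⟩ : ∃ A : Matrix {i // p i} {i // p i} ℂ,
    A = Matrix.of fun (i : {i // p i}) (j : {i // p i}) => if i = j then 0 else F' (x i - y' j) :=
      ⟨_, rfl⟩
  let _ : Invertible D := Matrix.invertibleOfIsUnitDet D (isUnit_iff_ne_zero.2 hDdet)
  obtain ⟨s, hs⟩ : ∃ s : ℂ, (B * ⅟D * C - A).charpoly.eval s ≠ 0 := by
    by_contra hcon
    push Not at hcon
    exact (Matrix.charpoly_monic (B * ⅟D * C - A)).ne_zero (Polynomial.funext (by simpa using hcon))
  refine ⟨Function.update F' g s, ?_⟩
  have hre : (Matrix.of fun i j => (Function.update F' g s) (x i - y' j)).submatrix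
      (Equiv.sumCompl p) (Equiv.sumCompl p) = Matrix.fromBlocks (Matrix.scalar _ s + A) B C D := by
    ext i j
    rcases i with i | i <;> rcases j with j | j
    · simp only [Matrix.submatrix_apply, Equiv.sumCompl_apply_inl, Matrix.of_apply,
        Matrix.fromBlocks_apply₁₁, Matrix.add_apply, Matrix.scalar_apply, hA]
      by_cases hij : i = j
      · subst hij
        rw [i.2]
        simp
      · have : x i - y' j ≠ g := fun h => hij (Subtype.ext (hm _ _ h).1)
        simp [hij, this]
    · simp only [Matrix.submatrix_apply, Equiv.sumCompl_apply_inl, Equiv.sumCompl_apply_inr,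
        Matrix.of_apply, Matrix.fromBlocks_apply₁₂, hB]
      have : x i - y' j ≠ g := fun h => j.2 ((hm _ _ h).1 ▸ i.2)
      simp [this]
    · simp only [Matrix.submatrix_apply, Equiv.sumCompl_apply_inl, Equiv.sumCompl_apply_inr,
        Matrix.of_apply, Matrix.fromBlocks_apply₂₁, hC]
      have : x i - y' j ≠ g := fun h => i.2 (hm _ _ h).2
      simp [this]
    · simp only [Matrix.submatrix_apply, Equiv.sumCompl_apply_inr,
        Matrix.of_apply, Matrix.fromBlocks_apply₂₂, hD]
      have : x i - y' j ≠ g := fun h => i.2 (hm _ _ h).2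
      simp [this]
  rw [← Matrix.det_submatrix_equiv_self (Equiv.sumCompl p), hre, Matrix.det_fromBlocks₂₂]
  refine mul_ne_zero hDdet ?_
  rw [Matrix.eval_charpoly] at hs
  convert hs using 2
  abel

/-- The set `Λ` of characters is a Riesz basis for `E`: it has as many elements as `E` and the
restrictions to `E` of its elements are linearly independent. -/
def IsRieszBasis {G : Type*} [AddCommGroup G] (E : Finset G) (Λ : Finset (AddChar G ℂ)) : Prop :=
  Λ.card = E.card ∧
    LinearIndependent ℂ (fun χ : Λ => fun x : E => (χ : AddChar G ℂ) (x : G))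

/-- Every pair of equally large nonempty sets in a finite abelian group has a simultaneous
exponential Riesz basis. -/
theorem result (G : Type*) [AddCommGroup G] [Finite G] (E₁ E₂ : Finset G) (_h₁ : E₁.Nonempty)
    (_h₂ : E₂.Nonempty) (hE : E₁.card = E₂.card) :
    ∃ Λ : Finset (AddChar G ℂ), IsRieszBasis E₁ Λ ∧ IsRieszBasis E₂ Λ := by
  classical
  have : Fintype G := Fintype.ofFinite G
  -- enumerate
  let e₁ : Fin E₁.card ≃ E₁ := (E₁.equivFin).symm
  let e₂ : Fin E₁.card ≃ E₂ := (finCongr hE).trans (E₂.equivFin).symm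
  let x : Fin E₁.card → G := fun i => e₁ i
  let y : Fin E₁.card → G := fun i => e₂ i
  have hx : Injective x := Subtype.val_injective.comp e₁.injective
  have hy : Injective y := Subtype.val_injective.comp e₂.injective
  obtain ⟨F, hF⟩ := exists_F (G := G) _ (Fin E₁.card) rfl x y hx hy
  let t : AddChar G ℂ → ℂ := fun χ => (AddChar.complexBasis G).repr F χ
  have ht : ∀ g, F g = ∑ χ : AddChar G ℂ, t χ * χ g := by
    intro g
    have := congrFun ((AddChar.complexBasis G).sum_repr F) g
    rw [← this]
    simp [t, AddChar.complexBasis_apply]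
  let A : Matrix (Fin E₁.card) (AddChar G ℂ) ℂ := Matrix.of fun i χ => t χ * χ (x i)
  let B : Matrix (AddChar G ℂ) (Fin E₁.card) ℂ := Matrix.of fun χ j => χ (- y j)
  have hAB : (Matrix.of fun i j => F (x i - y j)) = A * B := by
    ext i j
    simp only [Matrix.of_apply, Matrix.mul_apply, A, B, ht]
    refine Finset.sum_congr rfl fun χ _ => ?_
    rw [sub_eq_add_neg, AddChar.map_add_eq_mul, mul_assoc]
  have hne : ((Fintype.card (Fin E₁.card)).factorial : ℂ) * (A * B).det ≠ 0 := by
    rw [← hAB]
    exact mul_ne_zero (by exact_mod_cast Nat.factorial_ne_zero _) hF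
  rw [cb] at hne
  obtain ⟨I, _, hI⟩ := Finset.exists_ne_zero_of_sum_ne_zero hne
  have hI1 : (A.submatrix id I).det ≠ 0 := left_ne_zero_of_mul hI
  have hI2 : (B.submatrix I id).det ≠ 0 := right_ne_zero_of_mul hI
  -- the matrix of values on `E₁`
  have h1 : (Matrix.of fun a i => (I a) (x i)).det ≠ 0 := by
    intro h0
    apply hI1
    have : A.submatrix id I = ((Matrix.of fun a i => (I a) (x i))ᵀ) *
        Matrix.diagonal (fun a => t (I a)) := by
      ext i a
      simp [A, Matrix.mul_diagonal, mul_comm]
    rw [this, Matrix.det_mul, Matrix.det_transpose, h0, zero_mul]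
  have h2 : (Matrix.of fun a i => (I a) (y i)).det ≠ 0 := by
    intro h0
    apply hI2
    have : B.submatrix I id = (Matrix.of fun a i => (I a) (y i)).map (starRingEnd ℂ) := by
      ext a j
      simp [B, AddChar.map_neg_eq_conj]
    rw [this, ← RingHom.mapMatrix_apply, ← RingHom.map_det, h0, map_zero]
  have l1 : LinearIndependent ℂ (fun a : Fin E₁.card => fun i : Fin E₁.card => (I a) (x i)) :=
    Matrix.linearIndependent_rows_of_det_ne_zero h1
  have l2 : LinearIndependent ℂ (fun a : Fin E₁.card => fun i : Fin E₁.card => (I a) (y i)) :=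
    Matrix.linearIndependent_rows_of_det_ne_zero h2
  have k1 : LinearIndependent ℂ (fun a : Fin E₁.card => fun z : E₁ => (I a) (z : G)) := by
    refine LinearIndependent.of_comp (LinearMap.funLeft ℂ ℂ e₁) ?_
    exact l1
  have k2 : LinearIndependent ℂ (fun a : Fin E₁.card => fun z : E₂ => (I a) (z : G)) := by
    refine LinearIndependent.of_comp (LinearMap.funLeft ℂ ℂ e₂) ?_
    exact l2
  have hIinj : Injective I := by
    intro a b hab
    apply k1.injective
    funext z
    change (I a) (z : G) = (I b) (z : G)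
    rw [hab]
  refine ⟨Finset.univ.image I, ⟨?_, ?_⟩, ⟨?_, ?_⟩⟩
  · rw [Finset.card_image_of_injective _ hIinj, Finset.card_univ, Fintype.card_fin]
  · let f : Fin E₁.card ≃ (Finset.univ.image I : Finset (AddChar G ℂ)) :=
      Equiv.ofBijective (fun a => ⟨I a, Finset.mem_image_of_mem _ (Finset.mem_univ _)⟩) (by
        constructor
        · intro a b hab
          exact hIinj (Subtype.ext_iff.1 hab)
        · rintro ⟨χ, hχ⟩
          obtain ⟨a, _, rfl⟩ := Finset.mem_image.1 hχ
          exact ⟨a, rfl⟩)
    exact (linearIndependent_equiv' f rfl).1 k1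
  · rw [Finset.card_image_of_injective _ hIinj, Finset.card_univ, Fintype.card_fin, hE]
  · let f : Fin E₁.card ≃ (Finset.univ.image I : Finset (AddChar G ℂ)) :=
      Equiv.ofBijective (fun a => ⟨I a, Finset.mem_image_of_mem _ (Finset.mem_univ _)⟩) (by
        constructor
        · intro a b hab
          exact hIinj (Subtype.ext_iff.1 hab)
        · rintro ⟨χ, hχ⟩
          obtain ⟨a, _, rfl⟩ := Finset.mem_image.1 hχ
          exact ⟨a, rfl⟩)
    exact (linearIndependent_equiv' f rfl).1 k2

end Pool.Agent.Results.MP_b06300_an.Simultaneous
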